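import Pool.Agent.helper10.CH.SpecZ

/-!
# Project CH (MP_2e0e07_nt), row CUL: uniform bound for the Hecke L-functions of finite order
-/

set_option autoImplicit false

open NumberField Complex

namespace Pool.Agent.UN

theorem CUL_growth {L : ℂ → ℂ} {B : ℝ}
    (hB : ∀ s : ℂ, |s.re| ≤ 2 → ‖L s‖ ≤ B * (1 + |s.im|) ^ B) (s : ℂ) (hs : |s.re| ≤ 2) :
    ‖L s‖ ≤ max B 0 * Real.exp (max B 0 * |s.im|) := by
  have h0 : 0 ≤ max B 0 := le_max_right _ _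
  have h1 : (1 : ℝ) ≤ 1 + |s.im| := by linarith [abs_nonneg s.im]
  have h2 : (0 : ℝ) ≤ (1 + |s.im|) ^ B := Real.rpow_nonneg (by linarith) _
  calc ‖L s‖ ≤ B * (1 + |s.im|) ^ B := hB s hs
    _ ≤ max B 0 * (1 + |s.im|) ^ B := mul_le_mul_of_nonneg_right (le_max_left _ _) h2
    _ ≤ max B 0 * (1 + |s.im|) ^ max B 0 :=
      mul_le_mul_of_nonneg_left (Real.rpow_le_rpow_of_exponent_le h1 (le_max_left _ _)) h0
    _ ≤ max B 0 * (Real.exp |s.im|) ^ max B 0 := by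
      refine mul_le_mul_of_nonneg_left (Real.rpow_le_rpow (by linarith) ?_ h0) h0
      linarith [Real.add_one_le_exp |s.im|]
    _ = max B 0 * Real.exp (max B 0 * |s.im|) := by
      rw [← Real.exp_mul, mul_comm |s.im|]

theorem CUL_fe {ι : Type} [Fintype ι] (e : ι → ℝ) (he : ∀ i, e i = 0 ∨ e i = 1) (q C₁ : ℝ)
    (hq : 1 ≤ q) (hC : 1 ≤ C₁) (L : ℂ → ℂ) (c s : ℂ) (hc : ‖c‖ = 1) (hs : s.re ≤ -(3 / 2))
    (h : (q : ℂ) ^ (s / 2) * L s * ∏ i, (Gammaℝ (1 - s + e i))⁻¹ =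
      c * ((q : ℂ) ^ ((1 - s) / 2) * (starRingEnd ℂ) (L (1 - (starRingEnd ℂ) s)) *
        ∏ i, (Gammaℝ (s + e i))⁻¹)) :
    ‖L s‖ ≤ C₁ * q ^ (1 / 2 - s.re) * ‖L (1 - (starRingEnd ℂ) s)‖ *
      ∏ i, (‖Gammaℝ (1 - s + e i)‖ * ‖(Gammaℝ (s + e i))⁻¹‖) := by
  have hq0 : 0 < q := by linarith
  have h1 := congrArg norm h
  rw [norm_mul, norm_mul, norm_mul, norm_mul, norm_mul, hc, one_mul, norm_prod, norm_prod,
    RCLike.norm_conj, Complex.norm_cpow_eq_rpow_re_of_pos hq0,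
    Complex.norm_cpow_eq_rpow_re_of_pos hq0] at h1
  have e1 : (s / 2).re = s.re / 2 := by simp
  have e2 : ((1 - s) / 2).re = (1 - s.re) / 2 := by simp
  rw [e1, e2] at h1
  have hG : ∀ i, Gammaℝ (1 - s + e i) ≠ 0 := by
    intro i
    refine Complex.Gammaℝ_ne_zero_of_re_pos ?_
    have h2 : (1 - s + (e i : ℂ)).re = 1 - s.re + e i := by simp
    rw [h2]
    rcases he i with h3 | h3 <;> rw [h3] <;> linarith
  have hA : ∏ i, ‖(Gammaℝ (1 - s + e i))⁻¹‖ = (∏ i, ‖Gammaℝ (1 - s + e i)‖)⁻¹ := by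
    rw [← Finset.prod_inv_distrib]
    exact Finset.prod_congr rfl fun i _ => norm_inv _
  have hA0 : (∏ i, ‖Gammaℝ (1 - s + e i)‖) ≠ 0 :=
    Finset.prod_ne_zero_iff.2 fun i _ => norm_ne_zero_iff.2 (hG i)
  rw [hA] at h1
  rw [Finset.prod_mul_distrib]
  generalize (∏ i, ‖Gammaℝ (1 - s + e i)‖) = A at h1 hA0 ⊢
  have hB0 : 0 ≤ ∏ i, ‖(Gammaℝ (s + e i))⁻¹‖ := Finset.prod_nonneg fun i _ => norm_nonneg _
  generalize (∏ i, ‖(Gammaℝ (s + e i))⁻¹‖) = B at h1 hB0 ⊢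
  have h3 : q ^ (s.re / 2) ≠ 0 := (Real.rpow_pos_of_pos hq0 _).ne'
  have h4 : q ^ (s.re / 2) * q ^ (1 / 2 - s.re) = q ^ ((1 - s.re) / 2) := by
    rw [← Real.rpow_add hq0]
    congr 1
    ring
  have h5 : ‖L s‖ = q ^ (1 / 2 - s.re) * ‖L (1 - (starRingEnd ℂ) s)‖ * (A * B) := by
    refine mul_left_cancel₀ h3 ?_
    calc q ^ (s.re / 2) * ‖L s‖ = q ^ (s.re / 2) * ‖L s‖ * A⁻¹ * A := by
          rw [mul_assoc (q ^ (s.re / 2) * ‖L s‖), inv_mul_cancel₀ hA0, mul_one]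
      _ = q ^ (s.re / 2) * q ^ (1 / 2 - s.re) * ‖L (1 - (starRingEnd ℂ) s)‖ * B * A := by
          rw [h1, h4]
      _ = q ^ (s.re / 2) * (q ^ (1 / 2 - s.re) * ‖L (1 - (starRingEnd ℂ) s)‖ * (A * B)) := by
          ring
  have h6 : 0 ≤ q ^ (1 / 2 - s.re) * ‖L (1 - (starRingEnd ℂ) s)‖ * (A * B) := by
    rw [← h5]
    exact norm_nonneg _
  calc ‖L s‖ = 1 * (q ^ (1 / 2 - s.re) * ‖L (1 - (starRingEnd ℂ) s)‖ * (A * B)) := by
        rw [one_mul, h5]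
    _ ≤ C₁ * (q ^ (1 / 2 - s.re) * ‖L (1 - (starRingEnd ℂ) s)‖ * (A * B)) :=
        mul_le_mul_of_nonneg_right hC h6
    _ = _ := by ring

theorem CUL (hCUB : CUB_stmt) (hCUD : CUD_stmt) (hPRO : PRO_stmt) : UBL_stmt := by
  intro n
  obtain ⟨C₁, hC₁, h1⟩ := hCUD n
  obtain ⟨C, hC, h2⟩ := hCUB n C₁ hC₁
  refine ⟨C, hC, ?_⟩
  intro K _ _ f χ L hn hχ hL s
  obtain ⟨_, _, hD, _, _, hN, _⟩ := hPRO K
  obtain ⟨c, e, hc, he, hfe⟩ := hL.fe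
  have hq : 1 ≤ Dc K * Nm f := one_le_mul_of_one_le_of_one_le hD (hN f hχ.f0)
  refine h2 (K →+* ℂ) e (Dc K * Nm f) L ?_ he hq hL.entire ?_ ?_ ?_ s
  · rw [NumberField.Embeddings.card]
    exact hn
  · obtain ⟨B, hB⟩ := hL.growth 2
    exact ⟨max B 0, CUL_growth hB⟩
  · intro s hs
    rw [hL.series s (by linarith)]
    refine (h1 K χ hn ?_ hχ.bot s hs).trans ?_
    · intro a
      by_cases ha : a = ⊥
      · rw [ha, hχ.bot, norm_zero]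
        exact zero_le_one
      · by_cases haf : a ⊔ f = ⊤
        · exact (hχ.unit a ha haf).le
        · rw [hχ.zero a haf, norm_zero]
          exact zero_le_one
    · nlinarith [norm_nonneg s]
  · intro s hs
    have h3 := hfe s
    simp only [Int.cast_zero, abs_zero, ofReal_zero, zero_mul, zero_div, sub_zero, add_zero] at h3
    exact CUL_fe e he (Dc K * Nm f) C₁ hq hC₁ L c s hc hs h3

end Pool.Agent.UN
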