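import Pool.Agent.helper66.CH.CUL

/-!
# Project CH (MP_2e0e07_nt), row CUZ: uniform bound for `(s - 1) ζ_K(s)`
-/

set_option autoImplicit false

open NumberField Complex

namespace Pool.Agent.UN

theorem CUZ_fe {ι : Type} [Fintype ι] (e : ι → ℝ) (he : ∀ i, e i = 0 ∨ e i = 1) (q C₁ : ℝ)
    (hq : 1 ≤ q) (hC : 1 ≤ C₁) (Z : ℂ → ℂ) (c s : ℂ) (hc : ‖c‖ = 1) (hs : s.re ≤ -(3 / 2))
    (h : s * (q : ℂ) ^ (s / 2) * Z s * ∏ i, (Gammaℝ (1 - s + e i))⁻¹ =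
      c * ((1 - s) * (q : ℂ) ^ ((1 - s) / 2) * (starRingEnd ℂ) (Z (1 - (starRingEnd ℂ) s)) *
        ∏ i, (Gammaℝ (s + e i))⁻¹)) :
    ‖Z s‖ ≤ 2 * C₁ * q ^ (1 / 2 - s.re) * ‖Z (1 - (starRingEnd ℂ) s)‖ *
      ∏ i, (‖Gammaℝ (1 - s + e i)‖ * ‖(Gammaℝ (s + e i))⁻¹‖) := by
  have h1 : (starRingEnd ℂ) (1 - (starRingEnd ℂ) s) = 1 - s := by
    rw [map_sub, map_one, Complex.conj_conj]
  have h2 := CUL_fe e he q 1 hq le_rfl (fun w => w * Z w) c s hc hs (by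
    rw [map_mul, h1]
    calc (q : ℂ) ^ (s / 2) * (s * Z s) * ∏ i, (Gammaℝ (1 - s + e i))⁻¹ =
        s * (q : ℂ) ^ (s / 2) * Z s * ∏ i, (Gammaℝ (1 - s + e i))⁻¹ := by ring
      _ = _ := h
      _ = _ := by ring)
  simp only [norm_mul] at h2
  have h3 : 1 ≤ ‖s‖ := by
    have h4 := Complex.abs_re_le_norm s
    have h5 : 3 / 2 ≤ |s.re| := by
      rw [abs_of_nonpos (by linarith)]
      linarith
    linarith
  have h4 : ‖1 - (starRingEnd ℂ) s‖ ≤ 2 * ‖s‖ := by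
    have h5 := norm_sub_le (1 : ℂ) ((starRingEnd ℂ) s)
    rw [norm_one, RCLike.norm_conj] at h5
    linarith
  have hP : 0 ≤ ∏ i, (‖Gammaℝ (1 - s + e i)‖ * ‖(Gammaℝ (s + e i))⁻¹‖) :=
    Finset.prod_nonneg fun i _ => mul_nonneg (norm_nonneg _) (norm_nonneg _)
  generalize (∏ i, (‖Gammaℝ (1 - s + e i)‖ * ‖(Gammaℝ (s + e i))⁻¹‖)) = P at h2 hP ⊢
  have hq1 : 0 ≤ q ^ (1 / 2 - s.re) := Real.rpow_nonneg (by linarith) _
  have hX : 0 ≤ q ^ (1 / 2 - s.re) * ‖Z (1 - (starRingEnd ℂ) s)‖ * P :=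
    mul_nonneg (mul_nonneg hq1 (norm_nonneg _)) hP
  have h5 : ‖s‖ * ‖Z s‖ ≤ ‖s‖ * (2 * (q ^ (1 / 2 - s.re) * ‖Z (1 - (starRingEnd ℂ) s)‖ * P)) := by
    calc ‖s‖ * ‖Z s‖ ≤ 1 * q ^ (1 / 2 - s.re) *
          (‖1 - (starRingEnd ℂ) s‖ * ‖Z (1 - (starRingEnd ℂ) s)‖) * P := h2
      _ = ‖1 - (starRingEnd ℂ) s‖ * (q ^ (1 / 2 - s.re) * ‖Z (1 - (starRingEnd ℂ) s)‖ * P) := by
          ring
      _ ≤ 2 * ‖s‖ * (q ^ (1 / 2 - s.re) * ‖Z (1 - (starRingEnd ℂ) s)‖ * P) :=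
          mul_le_mul_of_nonneg_right h4 hX
      _ = _ := by ring
  have h6 := le_of_mul_le_mul_left h5 (by linarith)
  calc ‖Z s‖ ≤ 2 * (q ^ (1 / 2 - s.re) * ‖Z (1 - (starRingEnd ℂ) s)‖ * P) := h6
    _ ≤ 2 * C₁ * (q ^ (1 / 2 - s.re) * ‖Z (1 - (starRingEnd ℂ) s)‖ * P) :=
        mul_le_mul_of_nonneg_right (by linarith) hX
    _ = _ := by ring

theorem CUZ (hCUB : CUB_stmt) (hCUD : CUD_stmt) (hPRO : PRO_stmt) : UBZ_stmt := by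
  intro n
  obtain ⟨C₁, hC₁, h1⟩ := hCUD n
  obtain ⟨C, hC, h2⟩ := hCUB n (2 * C₁) (by linarith)
  refine ⟨C, hC, ?_⟩
  intro K _ _ Z hn hZ s
  obtain ⟨_, _, hD, _, _, _, _⟩ := hPRO K
  obtain ⟨c, e, hc, he, hfe⟩ := hZ.fe
  refine h2 (K →+* ℂ) e (Dc K) Z ?_ he hD hZ.entire (hZ.growth 2) ?_ ?_ s
  · rw [NumberField.Embeddings.card]
    exact hn
  · intro s hs
    have h3 : tc K ⊥ = 0 := if_pos rfl
    have h4 : ∀ a : Ideal (𝓞 K), ‖tc K a‖ ≤ 1 := by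
      intro a
      by_cases ha : a = ⊥
      · rw [ha, h3, norm_zero]
        exact zero_le_one
      · rw [tc, if_neg ha, norm_one]
    have h5 := h1 K (tc K) hn h4 h3 s hs
    rw [hZ.series s (by linarith), norm_mul]
    have h6 : ‖s - 1‖ ≤ 1 + ‖s‖ := by
      have h7 := norm_sub_le s 1
      rw [norm_one] at h7
      linarith
    have h7 := mul_le_mul h6 h5 (norm_nonneg _) (by positivity)
    have h8 : 0 ≤ C₁ * (1 + ‖s‖) := mul_nonneg (by linarith) (by positivity)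
    linarith
  · intro s hs
    exact CUZ_fe e he (Dc K) C₁ hD hC₁ Z c s hc hs (hfe s)

end Pool.Agent.UN
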