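import Pool.Agent.helper82.CH.SpecA

/-!
# Project CH (MP_2e0e07_nt), row EXT: extension of a character to a smaller modulus

For an ideal `a` prime to `f` let `(x) = a b`, `x = 1` modulo `f`, totally positive, `b` prime to `q`;
`χ' a` is the inverse of `χ b`.
-/

set_option autoImplicit false

open NumberField Complex Pool.Agent.UN

namespace Pool.Agent.CH

section

variable {F : Type} [Field F]

theorem EXT_l (a b : Ideal (𝓞 F)) : a * b ≤ a := Ideal.mul_le_left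

theorem EXT_r (a b : Ideal (𝓞 F)) : a * b ≤ b := Ideal.mul_le_right

theorem EXT_mono {a b q : Ideal (𝓞 F)} (h : a ≤ b) (ha : a ⊔ q = ⊤) : b ⊔ q = ⊤ :=
  eq_top_iff.2 (ha ▸ sup_le_sup_right h q)

theorem EXT_cop {a b q : Ideal (𝓞 F)} (ha : a ⊔ q = ⊤) (hb : b ⊔ q = ⊤) : a * b ⊔ q = ⊤ :=
  Ideal.isCoprime_iff_sup_eq.1
    (IsCoprime.mul_left (Ideal.isCoprime_iff_sup_eq.2 ha) (Ideal.isCoprime_iff_sup_eq.2 hb))

theorem EXT_one {x : 𝓞 F} {q : Ideal (𝓞 F)} (h : x - 1 ∈ q) : Ideal.span {x} ⊔ q = ⊤ := by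
  rw [Ideal.eq_top_iff_one]
  have h1 : (1 : 𝓞 F) = x - (x - 1) := by ring
  rw [h1]
  exact sub_mem (Ideal.mem_sup_left (Ideal.mem_span_singleton_self x)) (Ideal.mem_sup_right h)

theorem EXT_sub {x y : 𝓞 F} {f : Ideal (𝓞 F)} (h : x - y ∈ f) (hx : Ideal.span {x} ⊔ f = ⊤) :
    Ideal.span {y} ⊔ f = ⊤ := by
  rw [eq_top_iff, ← hx]
  refine sup_le ?_ le_sup_right
  rw [Ideal.span_singleton_le_iff_mem]
  have h1 : x = y + (x - y) := by ring
  rw [h1]
  exact add_mem (Ideal.mem_sup_left (Ideal.mem_span_singleton_self y)) (Ideal.mem_sup_right h)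

theorem EXT_cancel {s t : 𝓞 F} {f : Ideal (𝓞 F)} (hs : Ideal.span {s} ⊔ f = ⊤) (h : s * t ∈ f) :
    t ∈ f := by
  have h1 : (1 : 𝓞 F) ∈ Ideal.span {s} ⊔ f := by rw [hs]; exact Submodule.mem_top
  obtain ⟨α, hα, β, hβ, hαβ⟩ := Submodule.mem_sup.1 h1
  obtain ⟨r, rfl⟩ := Ideal.mem_span_singleton'.1 hα
  have h2 : t = r * (s * t) + β * t := by
    calc t = (r * s + β) * t := by rw [hαβ, one_mul]
      _ = r * (s * t) + β * t := by ring
  rw [h2]
  exact add_mem (f.mul_mem_left r h) (f.mul_mem_right t hβ)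

end

section

variable {F : Type} [Field F] [NumberField F]

/-- The property of the pair `(x, b)`. -/
def EXT_P (q f a : Ideal (𝓞 F)) (x : 𝓞 F) (b : Ideal (𝓞 F)) : Prop :=
  x ≠ 0 ∧ Ideal.span {x} = a * b ∧ b ⊔ q = ⊤ ∧ x - 1 ∈ f ∧ ∀ φ : F →+* ℝ, 0 < φ x

theorem EXT_P_one (q f : Ideal (𝓞 F)) : EXT_P q f ⊤ 1 ⊤ := by
  refine ⟨one_ne_zero, ?_, top_sup_eq _, by simp, fun φ => ?_⟩
  · rw [Ideal.span_singleton_one, Ideal.mul_top]
  · simp

omit [NumberField F] in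
theorem EXT_P_mul {q f a a' : Ideal (𝓞 F)} {x x' : 𝓞 F} {b b' : Ideal (𝓞 F)}
    (h : EXT_P q f a x b) (h' : EXT_P q f a' x' b') : EXT_P q f (a * a') (x * x') (b * b') := by
  obtain ⟨h1, h2, h3, h4, h5⟩ := h
  obtain ⟨h1', h2', h3', h4', h5'⟩ := h'
  refine ⟨mul_ne_zero h1 h1', ?_, EXT_cop h3 h3', ?_, fun φ => ?_⟩
  · rw [← Ideal.span_singleton_mul_span_singleton, h2, h2']
    exact mul_mul_mul_comm a b a' b'
  · have h6 : x * x' - 1 = x * (x' - 1) + (x - 1) := by ring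
    rw [h6]
    exact add_mem (f.mul_mem_left x h4') h4
  · have h6 : φ ((x * x' : 𝓞 F) : F) = φ x * φ x' := by
      rw [← map_mul]
      rfl
    rw [h6]
    exact mul_pos (h5 φ) (h5' φ)

theorem EXT_ex (hXPE : XPE_stmt) (q f : Ideal (𝓞 F)) (hq : q ≠ ⊥) (hf : f ≠ ⊥) (a : Ideal (𝓞 F)) :
    a ≠ ⊥ → a ⊔ f = ⊤ → ∃ (x : 𝓞 F) (b : Ideal (𝓞 F)), EXT_P q f a x b := by
  induction a using UniqueFactorizationMonoid.induction_on_prime with
  | h₁ => intro h; exact absurd rfl h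
  | h₂ a ha =>
    intro _ _
    rw [Ideal.isUnit_iff.1 ha]
    exact ⟨1, ⊤, EXT_P_one q f⟩
  | h₃ a P ha hP ih =>
    intro _ h
    obtain ⟨x, b, hx⟩ := ih ha (EXT_mono (EXT_r P a) h)
    obtain ⟨y, c, h1, h2, h3, h4, h5⟩ := hXPE F q f P hq hf hP.ne_zero
      (Ideal.isPrime_of_prime hP) (EXT_mono (EXT_l P a) h)
    exact ⟨y * x, c * b, EXT_P_mul ⟨h1, h2, h3, h4, h5⟩ hx⟩

/-- The main lemma. -/
theorem EXT_key (hUEX : UEX_stmt) {q f : Ideal (𝓞 F)} {χ : Ideal (𝓞 F) → ℂ} (hχ : HMo q χ)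
    (hqf : q ≤ f)
    (H : ∀ x : 𝓞 F, x ≠ 0 → Ideal.span {x} ⊔ q = ⊤ → x - 1 ∈ f → (∀ φ : F →+* ℝ, 0 < φ x) →
      χ (Ideal.span {x}) = 1) {s s' : 𝓞 F} {b b' : Ideal (𝓞 F)} (hs : s ≠ 0) (hs' : s' ≠ 0)
    (hb : b ≠ ⊥)
    (hbq : b ⊔ q = ⊤) (hbq' : b' ⊔ q = ⊤) (he : Ideal.span {s} * b' = Ideal.span {s'} * b)
    (hss : s' - s ∈ f) (hsf : Ideal.span {s} ⊔ f = ⊤) (hsg : ∀ φ : F →+* ℝ, 0 < φ s * φ s') :
    χ b = χ b' := by
  obtain ⟨u, u0, hub, huq, hu⟩ := hUEX F q b hχ.q0 hb (by rw [sup_comm]; exact hbq)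
  obtain ⟨c, hc⟩ : b ∣ Ideal.span {u} := by
    rw [Ideal.dvd_span_singleton]
    exact hub
  have huq' : Ideal.span {u} ⊔ q = ⊤ := EXT_one huq
  have hcq : c ⊔ q = ⊤ := EXT_mono (by rw [hc]; exact EXT_r b c) huq'
  have h1 : Ideal.span {s' * u} = Ideal.span {s} * (b' * c) := by
    rw [← Ideal.span_singleton_mul_span_singleton, hc, ← mul_assoc, ← mul_assoc, he]
  obtain ⟨w, hw⟩ : s ∣ s' * u := by
    rw [← Ideal.mem_span_singleton]
    have h2 : s' * u ∈ Ideal.span {s' * u} := Ideal.mem_span_singleton_self _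
    rw [h1] at h2
    exact EXT_l _ _ h2
  have hs0 : Ideal.span {s} ≠ (⊥ : Ideal (𝓞 F)) := by
    rw [Ne, Ideal.span_singleton_eq_bot]
    exact hs
  have h3 : Ideal.span {w} = b' * c := by
    rw [hw, ← Ideal.span_singleton_mul_span_singleton] at h1
    exact mul_left_cancel₀ (show Ideal.span {s} ≠ 0 from hs0) h1
  have hw0 : w ≠ 0 := by
    rintro rfl
    rw [mul_zero] at hw
    exact mul_ne_zero hs' u0 hw
  have hwq : Ideal.span {w} ⊔ q = ⊤ := by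
    rw [h3]
    exact EXT_cop hbq' hcq
  have hwf : w - 1 ∈ f := by
    refine EXT_cancel hsf ?_
    have h4 : s * (w - 1) = s' * (u - 1) + (s' - s) := by
      have : s * w = s' * u := hw.symm
      rw [mul_sub, this]
      ring
    rw [h4]
    exact add_mem (f.mul_mem_left s' (hqf huq)) hss
  have hwp : ∀ φ : F →+* ℝ, 0 < φ w := by
    intro φ
    have h5 : φ s * φ w = φ s' * φ u := by
      have h6 : ((s * w : 𝓞 F) : F) = ((s' * u : 𝓞 F) : F) := by rw [hw]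
      have h7 := congrArg φ h6
      have h8 : ((s * w : 𝓞 F) : F) = (s : F) * (w : F) := rfl
      have h9 : ((s' * u : 𝓞 F) : F) = (s' : F) * (u : F) := rfl
      rwa [h8, h9, map_mul, map_mul] at h7
    have h6 := hsg φ
    have h7 := hu φ
    have h8 : 0 < φ s * φ s * φ w := by
      calc (0 : ℝ) < φ s * φ s' * φ u := mul_pos h6 h7
        _ = φ s * φ s * φ w := by rw [mul_assoc, ← h5, mul_assoc]
    have h9 : 0 < φ s * φ s := by
      rcases lt_or_eq_of_le (mul_self_nonneg (φ (s : F))) with h | h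
      · exact h
      · rw [← h, zero_mul] at h8
        exact absurd h8 (lt_irrefl _)
    exact (mul_pos_iff_of_pos_left h9).1 h8
  have e1 := H w hw0 hwq hwf hwp
  have e2 := H u u0 huq' (hqf huq) hu
  rw [h3, hχ.mul] at e1
  rw [hc, hχ.mul] at e2
  have hc0 : χ c ≠ 0 := by
    intro h
    rw [h, mul_zero] at e2
    exact zero_ne_one e2
  exact mul_right_cancel₀ hc0 (e2.trans e1.symm)

end

theorem EXT (hXPE : XPE_stmt) (hUEX : UEX_stmt) : EXT_stmt := by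
  intro F _ _ q f χ hχ hqf H0
  have hq := hχ.q0
  have hf : f ≠ ⊥ := by
    rintro rfl
    exact hq (le_bot_iff.1 hqf)
  have H : ∀ x : 𝓞 F, x ≠ 0 → Ideal.span {x} ⊔ q = ⊤ → x - 1 ∈ f → (∀ φ : F →+* ℝ, 0 < φ x) →
      χ (Ideal.span {x}) = 1 := by
    intro x hx hxq hxf hp
    have h1 : Ideal.span {(1 : 𝓞 F)} = ⊤ := Ideal.span_singleton_one
    rw [← hχ.one, ← h1]
    refine H0 x 1 hx one_ne_zero hxq (by rw [h1]; exact top_sup_eq _) hxf fun φ => ?_
    have h2 : φ ((1 : 𝓞 F) : F) = 1 := by simp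
    rw [h2, mul_one]
    exact hp φ
  have hex : ∀ a : Ideal (𝓞 F), ∃ v : ℂ, (a ≠ ⊥ → a ⊔ f = ⊤ → ∃ (x : 𝓞 F) (b : Ideal (𝓞 F)),
      EXT_P q f a x b ∧ v * χ b = 1) ∧ ((a = ⊥ ∨ a ⊔ f ≠ ⊤) → v = 0) := by
    intro a
    by_cases h : a ≠ ⊥ ∧ a ⊔ f = ⊤
    · obtain ⟨x, b, hx⟩ := EXT_ex hXPE q f hq hf a h.1 h.2
      have hb0 : b ≠ ⊥ := by
        rintro rfl
        have h3 := hx.2.1
        rw [Ideal.mul_bot, Ideal.span_singleton_eq_bot] at h3
        exact hx.1 h3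
      have hb1 := hχ.unit b hb0 hx.2.2.1
      have hb2 : χ b ≠ 0 := by
        intro h4
        rw [h4, norm_zero] at hb1
        exact zero_ne_one hb1
      refine ⟨(χ b)⁻¹, fun _ _ => ⟨x, b, hx, inv_mul_cancel₀ hb2⟩, ?_⟩
      rintro (h5 | h5)
      · exact absurd h5 h.1
      · exact absurd h.2 h5
    · refine ⟨0, fun h1 h2 => absurd ⟨h1, h2⟩ h, fun _ => rfl⟩
  choose χ' h1 h2 using hex
  have hb0 : ∀ {a b : Ideal (𝓞 F)} {x : 𝓞 F}, EXT_P q f a x b → b ≠ ⊥ := by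
    intro a b x hx hb
    have h3 := hx.2.1
    rw [hb, Ideal.mul_bot, Ideal.span_singleton_eq_bot] at h3
    exact hx.1 h3
  have hval : ∀ {a b : Ideal (𝓞 F)} {x : 𝓞 F}, a ≠ ⊥ → a ⊔ f = ⊤ → EXT_P q f a x b →
      χ' a * χ b = 1 := by
    intro a b x ha haf hx
    obtain ⟨y, c, hy, hyc⟩ := h1 a ha haf
    have h3 : χ b = χ c := by
      refine EXT_key hUEX hχ hqf H hx.1 hy.1 (hb0 hx) hx.2.2.1 hy.2.2.1 ?_ ?_
        (EXT_one hx.2.2.2.1) fun φ => mul_pos (hx.2.2.2.2 φ) (hy.2.2.2.2 φ)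
      · rw [hx.2.1, hy.2.1, mul_assoc, mul_assoc, mul_comm b c]
      · have h4 : y - x = (y - 1) - (x - 1) := by ring
        rw [h4]
        exact sub_mem hy.2.2.2.1 hx.2.2.2.1
    rw [h3]
    exact hyc
  refine ⟨χ', ⟨hf, h2 ⊥ (Or.inl rfl), ?_, ?_, ?_, fun a ha => h2 a (Or.inr ha), ?_⟩, ?_⟩
  · have h3 := hval (a := ⊤) (b := ⊤) (x := 1) top_ne_bot (top_sup_eq _) (EXT_P_one q f)
    rwa [hχ.one, mul_one] at h3
  · intro a b
    by_cases ha : a = ⊥
    · rw [ha, Ideal.bot_mul, h2 ⊥ (Or.inl rfl), zero_mul]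
    by_cases hb : b = ⊥
    · rw [hb, Ideal.mul_bot, h2 ⊥ (Or.inl rfl), mul_zero]
    by_cases haf : a ⊔ f = ⊤
    · by_cases hbf : b ⊔ f = ⊤
      · obtain ⟨x, c, hx, hxc⟩ := h1 a ha haf
        obtain ⟨y, d, hy, hyd⟩ := h1 b hb hbf
        have hab : a * b ≠ ⊥ := mul_ne_zero (show a ≠ 0 from ha) (show b ≠ 0 from hb)
        have h3 := hval hab (EXT_cop haf hbf) (EXT_P_mul hx hy)
        rw [hχ.mul] at h3
        have hc0 : χ c * χ d ≠ 0 := by
          intro h4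
          rw [h4, mul_zero] at h3
          exact zero_ne_one h3
        refine mul_right_cancel₀ hc0 ?_
        rw [h3]
        calc (1 : ℂ) = (χ' a * χ c) * (χ' b * χ d) := by rw [hxc, hyd, one_mul]
          _ = χ' a * χ' b * (χ c * χ d) := by ring
      · rw [h2 b (Or.inr hbf), mul_zero, h2 (a * b) (Or.inr fun h => hbf
          (EXT_mono (EXT_r a b) h))]
    · rw [h2 a (Or.inr haf), zero_mul, h2 (a * b) (Or.inr fun h => haf
        (EXT_mono (EXT_l a b) h))]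
  · intro a ha haf
    obtain ⟨x, b, hx, hxb⟩ := h1 a ha haf
    have h3 := hχ.unit b (hb0 hx) hx.2.2.1
    have h4 := congrArg norm hxb
    rwa [norm_mul, h3, mul_one, norm_one] at h4
  · intro x y hx hy hxy hsg
    have hx0 : Ideal.span {x} ≠ (⊥ : Ideal (𝓞 F)) := by
      rw [Ne, Ideal.span_singleton_eq_bot]
      exact hx
    have hy0 : Ideal.span {y} ≠ (⊥ : Ideal (𝓞 F)) := by
      rw [Ne, Ideal.span_singleton_eq_bot]
      exact hy
    have hyx : y - x ∈ f := by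
      have h3 : y - x = -(x - y) := by ring
      rw [h3]
      exact neg_mem hxy
    by_cases hxf : Ideal.span {x} ⊔ f = ⊤
    · have hyf := EXT_sub hxy hxf
      obtain ⟨t, b, ht, htb⟩ := h1 _ hx0 hxf
      obtain ⟨t', b', ht', htb'⟩ := h1 _ hy0 hyf
      have h3 : χ b = χ b' := by
        refine EXT_key hUEX hχ hqf H (s := t * y) (s' := t' * x) (mul_ne_zero ht.1 hy)
          (mul_ne_zero ht'.1 hx) (hb0 ht) ht.2.2.1 ht'.2.2.1 ?_ ?_ ?_ ?_
        · rw [← Ideal.span_singleton_mul_span_singleton, ← Ideal.span_singleton_mul_span_singleton,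
            ht.2.1, ht'.2.1]
          ring
        · have h4 : t' * x - t * y = (t' - 1) * x - (t - 1) * y + (x - y) := by ring
          rw [h4]
          exact add_mem (sub_mem (f.mul_mem_right x ht'.2.2.2.1) (f.mul_mem_right y ht.2.2.2.1)) hxy
        · rw [← Ideal.span_singleton_mul_span_singleton]
          exact EXT_cop (EXT_one ht.2.2.2.1) hyf
        · intro φ
          have h4 : φ ((t * y : 𝓞 F) : F) = φ t * φ y := by
            rw [← map_mul]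
            rfl
          have h5 : φ ((t' * x : 𝓞 F) : F) = φ t' * φ x := by
            rw [← map_mul]
            rfl
          rw [h4, h5]
          have h6 := mul_pos (mul_pos (ht.2.2.2.2 φ) (ht'.2.2.2.2 φ)) (hsg φ)
          calc (0 : ℝ) < φ t * φ t' * (φ x * φ y) := h6
            _ = φ t * φ y * (φ t' * φ x) := by ring
      rw [h3] at htb
      have hc0 : χ b' ≠ 0 := by
        intro h4
        rw [h4, mul_zero] at htb
        exact zero_ne_one htb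
      exact mul_right_cancel₀ hc0 (htb.trans htb'.symm)
    · rw [h2 _ (Or.inr hxf), h2 _ (Or.inr fun h => hxf (EXT_sub hyx h))]
  · intro a ha haq
    have haf : a ⊔ f = ⊤ := eq_top_iff.2 (haq ▸ sup_le_sup_left hqf a)
    obtain ⟨x, b, hx, hxb⟩ := h1 a ha haf
    have h3 := H x hx.1 (by rw [hx.2.1]; exact EXT_cop haq hx.2.2.1) hx.2.2.2.1 hx.2.2.2.2
    rw [hx.2.1, hχ.mul] at h3
    have hc0 : χ b ≠ 0 := by
      intro h4
      rw [h4, mul_zero] at h3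
      exact zero_ne_one h3
    exact mul_right_cancel₀ hc0 (hxb.trans h3.symm)

end Pool.Agent.CH
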